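import Mathlib
import Pool.Agent.Q215.TreeMeas

/-!
There is a tree forcing `P`, both on the tree of finite sequences of natural numbers and on the
tree of finite binary sequences, for which some Borel set is not `P`-measurable.
-/

namespace Pool.Agent.Results.MP_9b1908_lc.BorelNotMeasurable

/-- A tree on `Λ`: a set of finite sequences closed under initial segments. -/
def IsTree {Λ : Type} (T : Set (List Λ)) : Prop :=
  ∀ s t : List Λ, t ∈ T → s <+: t → s ∈ T

/-- The restriction of `x` to `n`, as a finite sequence of length `n`. -/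
def res {Λ : Type} (x : ℕ → Λ) (n : ℕ) : List Λ := (List.range n).map x

/-- The set of infinite branches of `T`. -/
def branches {Λ : Type} (T : Set (List Λ)) : Set (ℕ → Λ) := {x | ∀ n, res x n ∈ T}

/-- Perfect trees: nonempty trees in which every node has two incomparable extensions. -/
def IsPerfectTree {Λ : Type} (T : Set (List Λ)) : Prop :=
  IsTree T ∧ T.Nonempty ∧
    ∀ s ∈ T, ∃ t ∈ T, ∃ u ∈ T, s <+: t ∧ s <+: u ∧ ¬ t <+: u ∧ ¬ u <+: t

/-- The tree `T_s` of the nodes of `T` comparable with `s`. -/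
def restr {Λ : Type} (T : Set (List Λ)) (s : List Λ) : Set (List Λ) :=
  {t | t ∈ T ∧ (t <+: s ∨ s <+: t)}

/-- Tree forcings: collections of perfect trees containing the full tree and closed under
passing from `T` to `T_s` for `s ∈ T`. -/
def IsTreeForcing {Λ : Type} (P : Set (Set (List Λ))) : Prop :=
  (∀ T ∈ P, IsPerfectTree T) ∧ Set.univ ∈ P ∧ ∀ T ∈ P, ∀ s ∈ T, restr T s ∈ P

/-- Borel subsets of a topological space. -/
def IsBorel {X : Type} [TopologicalSpace X] (A : Set X) : Prop := @MeasurableSet X (borel X) A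

/-- `A` is `P`-nowhere dense. -/
def IsPNowhereDense {Λ : Type} (P : Set (Set (List Λ))) (A : Set (ℕ → Λ)) : Prop :=
  ∀ T ∈ P, ∃ S ∈ P, S ⊆ T ∧ branches S ∩ A = ∅

/-- Membership in the sigma-ideal generated by the `P`-nowhere dense sets. -/
def InIdeal {Λ : Type} (P : Set (Set (List Λ))) (A : Set (ℕ → Λ)) : Prop :=
  ∃ N : ℕ → Set (ℕ → Λ), (∀ n, IsPNowhereDense P (N n)) ∧ A ⊆ ⋃ n, N n

/-- `A` is `P`-measurable. -/
def IsPMeasurable {Λ : Type} (P : Set (Set (List Λ))) (A : Set (ℕ → Λ)) : Prop :=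
  ∀ T ∈ P, ∃ S ∈ P, S ⊆ T ∧ (InIdeal P (branches S \ A) ∨ InIdeal P (branches S ∩ A))

open Q215.TreeMeas

/-! ### Transfer along a coding -/

/-- Codings of the points of `ℕ → ℕ` by points of `ℕ → Λ`. -/
structure Coding {Λ : Type} (c : (ℕ → ℕ) → (ℕ → Λ)) : Prop where
  fin : ∀ n x y, Agree x y n → ∀ i, i < n → c x i = c y i
  inv : ∀ x n, ∃ m, ∀ y, (∀ i, i < m → c x i = c y i) → Agree x y n
  dense : ∀ σ : List Λ, ∃ x, res (c x) σ.length = σ

/-- the tree of the codes of the points of `X`. -/
def treeOf {Λ : Type} (c : (ℕ → ℕ) → (ℕ → Λ)) (X : Set (ℕ → ℕ)) : Set (List Λ) :=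
  {t | ∃ x ∈ X, ∃ n, t = res (c x) n}

lemma res_length {Λ : Type} (x : ℕ → Λ) (n : ℕ) : (res x n).length = n := by simp [res]

lemma res_eq_iff {Λ : Type} {x y : ℕ → Λ} {n : ℕ} :
    res x n = res y n ↔ ∀ i, i < n → x i = y i := by
  unfold res
  constructor
  · intro h i hi
    have := List.map_inj_left.1 h i (List.mem_range.2 hi)
    exact this
  · intro h
    exact List.map_inj_left.2 fun i hi => h i (List.mem_range.1 hi)

lemma res_prefix {Λ : Type} (x : ℕ → Λ) {n m : ℕ} (h : n ≤ m) : res x n <+: res x m := by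
  unfold res
  have : List.range n <+: List.range m := by
    rw [List.prefix_iff_eq_take]
    simp [List.take_range, h]
  exact List.IsPrefix.map x this

lemma prefix_res {Λ : Type} {x : ℕ → Λ} {n : ℕ} {s : List Λ} (h : s <+: res x n) :
    s.length ≤ n ∧ s = res x s.length := by
  have hl : s.length ≤ n := by
    have := h.length_le
    rwa [res_length] at this
  refine ⟨hl, ?_⟩
  exact List.prefix_of_prefix_length_le h (res_prefix x hl) (by rw [res_length]) |>.eq_of_length
    (by rw [res_length])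

variable {Λ : Type} {c : (ℕ → ℕ) → (ℕ → Λ)}

lemma Coding.injective (hc : Coding c) : Function.Injective c := by
  intro x y h
  funext i
  obtain ⟨m, hm⟩ := hc.inv x (i + 1)
  exact hm y (fun j _ => by rw [h]) i (Nat.lt_succ_self i)

lemma isTree_treeOf (X : Set (ℕ → ℕ)) : IsTree (treeOf c X) := by
  rintro s t ⟨x, hx, n, rfl⟩ hs
  exact ⟨x, hx, s.length, (prefix_res hs).2⟩

lemma restr_treeOf (X : Set (ℕ → ℕ)) (x : ℕ → ℕ) (hx : x ∈ X) (n : ℕ) :
    restr (treeOf c X) (res (c x) n) = treeOf c (X ∩ {y | res (c y) n = res (c x) n}) := by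
  ext t
  constructor
  · rintro ⟨⟨y, hy, m, rfl⟩, h | h⟩
    · obtain ⟨h1, h2⟩ := prefix_res h
      exact ⟨x, ⟨hx, rfl⟩, _, h2⟩
    · refine ⟨y, ⟨hy, ?_⟩, m, rfl⟩
      have := (prefix_res h).2
      rw [res_length] at this
      exact this.symm
  · rintro ⟨y, ⟨hy, hyn⟩, m, rfl⟩
    refine ⟨⟨y, hy, m, rfl⟩, ?_⟩
    have hyn' : res (c y) n = res (c x) n := hyn
    rw [← hyn']
    rcases le_total m n with h | h
    · exact Or.inl (res_prefix _ h)
    · exact Or.inr (res_prefix _ h)

lemma restr_mem_fam (hc : Coding c) {X : Set (ℕ → ℕ)} (hX : X ∈ Fam) (x : ℕ → ℕ) (hx : x ∈ X)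
    (n : ℕ) : X ∩ {y | res (c y) n = res (c x) n} ∈ Fam := by
  refine restrict_mem hX _ n ?_ ⟨x, hx, rfl⟩
  intro y z hag hy
  have hy' : res (c y) n = res (c x) n := hy
  show res (c z) n = res (c x) n
  rw [← hy']
  exact res_eq_iff.2 (fun i hi => (hc.fin n y z hag i hi).symm)

lemma perfect_treeOf (hc : Coding c) {X : Set (ℕ → ℕ)} (hX : X ∈ Fam) :
    IsPerfectTree (treeOf c X) := by
  refine ⟨isTree_treeOf X, ?_, ?_⟩
  · obtain ⟨x, hx, -⟩ := two_points hX
    exact ⟨res (c x) 0, x, hx, 0, rfl⟩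
  · rintro s ⟨x, hx, n, rfl⟩
    obtain ⟨y, ⟨hy, hyn⟩, z, ⟨hz, hzn⟩, hne⟩ := two_points (restr_mem_fam hc hX x hx n)
    have hyn' : res (c y) n = res (c x) n := hyn
    have hzn' : res (c z) n = res (c x) n := hzn
    have hne' : c y ≠ c z := fun h => hne (hc.injective h)
    obtain ⟨m, hm⟩ := Function.ne_iff.1 hne'
    have hdiff : res (c y) (m + 1 + n) ≠ res (c z) (m + 1 + n) := fun h =>
      hm (res_eq_iff.1 h m (by omega))
    refine ⟨res (c y) (m + 1 + n), ⟨y, hy, _, rfl⟩, res (c z) (m + 1 + n), ⟨z, hz, _, rfl⟩,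
      ?_, ?_, ?_, ?_⟩
    · rw [← hyn']; exact res_prefix _ (by omega)
    · rw [← hzn']; exact res_prefix _ (by omega)
    · intro h
      exact hdiff (h.eq_of_length (by rw [res_length, res_length]))
    · intro h
      exact hdiff (h.eq_of_length (by rw [res_length, res_length])).symm

lemma sub_of_treeOf (hc : Coding c) {X Y : Set (ℕ → ℕ)} (hX : X ∈ Fam)
    (h : treeOf c Y ⊆ treeOf c X) : Y ⊆ X := by
  intro y hy
  refine closed_mem hX y fun n => ?_
  obtain ⟨m, hm⟩ := hc.inv y n
  obtain ⟨x, hx, m', hm'⟩ := h ⟨y, hy, m, rfl⟩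
  have : m = m' := by
    have := congrArg List.length hm'
    rwa [res_length, res_length] at this
  subst this
  exact ⟨x, hx, hm x (res_eq_iff.1 hm')⟩

lemma mem_branches (X : Set (ℕ → ℕ)) {x : ℕ → ℕ} (hx : x ∈ X) :
    c x ∈ branches (treeOf c X) := fun n => ⟨x, hx, n, rfl⟩

/-- The family of trees. -/
def PP (c : (ℕ → ℕ) → (ℕ → Λ)) : Set (Set (List Λ)) := {T | ∃ X ∈ Fam, T = treeOf c X}

lemma isTreeForcing (hc : Coding c) : IsTreeForcing (PP c) := by
  refine ⟨?_, ?_, ?_⟩
  · rintro T ⟨X, hX, rfl⟩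
    exact perfect_treeOf hc hX
  · refine ⟨Set.univ, univ_mem, ?_⟩
    symm
    refine Set.eq_univ_of_forall fun σ => ?_
    obtain ⟨x, hx⟩ := hc.dense σ
    exact ⟨x, Set.mem_univ _, _, hx.symm⟩
  · rintro T ⟨X, hX, rfl⟩ s ⟨x, hx, n, rfl⟩
    exact ⟨_, restr_mem_fam hc hX x hx n, restr_treeOf X x hx n⟩

lemma nwd_of (hc : Coding c) {N : Set (ℕ → Λ)} (hN : IsPNowhereDense (PP c) N) :
    Nwd (c ⁻¹' N) := by
  intro X hX
  obtain ⟨S, ⟨Y, hY, rfl⟩, hYX, hYN⟩ := hN _ ⟨X, hX, rfl⟩
  refine ⟨Y, hY, sub_of_treeOf hc hX hYX, ?_⟩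
  rw [Set.eq_empty_iff_forall_notMem]
  rintro y ⟨hy, hyN⟩
  have : c y ∈ branches (treeOf c Y) ∩ N := ⟨mem_branches Y hy, hyN⟩
  rw [hYN] at this
  exact this

lemma not_measurable (hc : Coding c) : ¬ IsPMeasurable (PP c) (c '' Ev) := by
  intro hm
  obtain ⟨S, ⟨X, hX, rfl⟩, -, h | h⟩ := hm _ ⟨Set.univ, univ_mem, rfl⟩
  · obtain ⟨N, hN, hcov⟩ := h
    apply not_cosmall X hX (fun n => c ⁻¹' (N n)) (fun n => nwd_of hc (hN n))
    rintro x ⟨hx, hxE⟩
    have h1 : c x ∈ branches (treeOf c X) \ c '' Ev := by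
      refine ⟨mem_branches X hx, ?_⟩
      rintro ⟨y, hy, hyx⟩
      rw [hc.injective hyx] at hy
      exact hxE hy
    obtain ⟨j, hj⟩ := Set.mem_iUnion.1 (hcov h1)
    exact Set.mem_iUnion.2 ⟨j, hj⟩
  · obtain ⟨N, hN, hcov⟩ := h
    apply not_small X hX (fun n => c ⁻¹' (N n)) (fun n => nwd_of hc (hN n))
    rintro x ⟨hx, hxE⟩
    obtain ⟨j, hj⟩ := Set.mem_iUnion.1 (hcov ⟨mem_branches X hx, x, hxE, rfl⟩)
    exact Set.mem_iUnion.2 ⟨j, hj⟩

lemma coding_continuous [TopologicalSpace Λ] [DiscreteTopology Λ] (hc : Coding c) :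
    Continuous c := by
  rw [continuous_pi_iff]
  intro i
  rw [continuous_discrete_rng]
  intro b
  rw [isOpen_pi_iff]
  intro x hx
  refine ⟨Finset.range (i + 1), fun j => {x j}, ?_, ?_⟩
  · intro j _
    exact ⟨isOpen_discrete _, rfl⟩
  · intro y hy
    have hag : Agree x y (i + 1) := by
      intro j hj
      have := hy j (by simpa using hj)
      exact (Set.mem_singleton_iff.1 this).symm
    show c y i = b
    rw [← hc.fin (i + 1) x y hag i (Nat.lt_succ_self i)]
    exact hx

lemma borel_image [TopologicalSpace Λ] [DiscreteTopology Λ] (hc : Coding c) :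
    IsBorel (c '' Ev) := by
  let _ : MeasurableSpace (ℕ → Λ) := borel (ℕ → Λ)
  have _ : BorelSpace (ℕ → Λ) := ⟨rfl⟩
  exact meas_Ev.image_of_continuousOn_injOn (coding_continuous hc).continuousOn
    hc.injective.injOn

/-! ### The two codings -/

lemma coding_id : Coding (fun x : ℕ → ℕ => x) where
  fin := fun n x y h i hi => h i hi
  inv := fun x n => ⟨n, fun y h => h⟩
  dense := by
    intro σ
    refine ⟨fun i => σ.getD i 0, ?_⟩
    apply List.ext_getElem
    · rw [res_length]
    · intro i h1 h2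
      simp [res, List.getElem?_eq_getElem h2]

/-- the position after the `j`-th one. -/
def Sp (x : ℕ → ℕ) (j : ℕ) : ℕ := ∑ i ∈ Finset.range j, (x i + 1)

open Classical in
/-- the code of `x`: blocks of `x i` zeros separated by ones. -/
noncomputable def code (x : ℕ → ℕ) (n : ℕ) : Fin 2 := if ∃ j, Sp x j = n + 1 then 1 else 0

lemma code_eq_iff {x y : ℕ → ℕ} {n m : ℕ} :
    code x n = code y m ↔ ((∃ j, Sp x j = n + 1) ↔ ∃ j, Sp y j = m + 1) := by
  unfold code
  by_cases h1 : ∃ j, Sp x j = n + 1 <;> by_cases h2 : ∃ j, Sp y j = m + 1 <;>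
    simp [h1, h2]

lemma Sp_succ (x : ℕ → ℕ) (j : ℕ) : Sp x (j + 1) = Sp x j + (x j + 1) :=
  Finset.sum_range_succ _ _

lemma Sp_strictMono (x : ℕ → ℕ) : StrictMono (Sp x) :=
  strictMono_nat_of_lt_succ fun j => by rw [Sp_succ]; omega

lemma Sp_congr {x y : ℕ → ℕ} {n : ℕ} (h : Agree x y n) {j : ℕ} (hj : j ≤ n) :
    Sp x j = Sp y j :=
  Finset.sum_congr rfl fun i hi => by rw [h i (lt_of_lt_of_le (Finset.mem_range.1 hi) hj)]

lemma code_key {x y : ℕ → ℕ} {n : ℕ} (h : ∀ i, i < Sp x n → code x i = code y i) :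
    ∀ j, j ≤ n → Agree x y j := by
  intro j
  induction j with
  | zero => intro _ i hi; exact absurd hi (Nat.not_lt_zero i)
  | succ j ih =>
    intro hj
    have hag := ih (by omega)
    have hS : Sp x j = Sp y j := Sp_congr hag le_rfl
    have hle : Sp x (j + 1) ≤ Sp x n := (Sp_strictMono x).monotone hj
    have hx1 := Sp_succ x j
    have hy1 := Sp_succ y j
    intro i hi
    rcases Nat.lt_succ_iff_lt_or_eq.1 hi with h' | h'
    · exact hag i h'
    · subst h'
      rcases lt_trichotomy (x i) (y i) with hlt | heq | hgt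
      · exfalso
        have e := code_eq_iff.1 (h (Sp x i + x i) (by omega))
        obtain ⟨l, hl⟩ := e.1 ⟨i + 1, by omega⟩
        have h1 : i < l := (Sp_strictMono y).lt_iff_lt.1 (by omega)
        have h2 : l < i + 1 := (Sp_strictMono y).lt_iff_lt.1 (by omega)
        omega
      · exact heq
      · exfalso
        have e := code_eq_iff.1 (h (Sp y i + y i) (by omega))
        obtain ⟨l, hl⟩ := e.2 ⟨i + 1, by omega⟩
        have h1 : i < l := (Sp_strictMono x).lt_iff_lt.1 (by omega)
        have h2 : l < i + 1 := (Sp_strictMono x).lt_iff_lt.1 (by omega)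
        omega

lemma coding_code : Coding code where
  fin := by
    intro n x y h i hi
    rw [code_eq_iff]
    constructor
    · rintro ⟨j, hj⟩
      have : j ≤ Sp x j := (Sp_strictMono x).id_le j
      exact ⟨j, by rw [← Sp_congr h (by omega : j ≤ n)]; exact hj⟩
    · rintro ⟨j, hj⟩
      have : j ≤ Sp y j := (Sp_strictMono y).id_le j
      exact ⟨j, by rw [Sp_congr h (by omega : j ≤ n)]; exact hj⟩
  inv := fun x n => ⟨Sp x n, fun y h => code_key h n le_rfl⟩
  dense := by
    intro σ
    induction σ with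
    | nil => exact ⟨fun _ => 0, rfl⟩
    | cons b σ ih =>
      obtain ⟨x, hx⟩ := ih
      -- it suffices to prepend a digit to a code
      suffices h : ∃ z, code z 0 = b ∧ ∀ n, code z (n + 1) = code x n by
        obtain ⟨z, hz0, hzs⟩ := h
        refine ⟨z, ?_⟩
        unfold res at hx ⊢
        rw [List.length_cons, List.range_succ_eq_map, List.map_cons, List.map_map, hz0]
        congr 1
        rw [← hx, List.length_map, List.length_range]
        exact List.map_congr_left fun i _ => hzs i
      have hb : b = 0 ∨ b = 1 := by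
        fin_cases b
        · left; rfl
        · right; rfl
      rcases hb with hb | hb
      · -- a zero: increase the first value
        let z : ℕ → ℕ := Function.update x 0 (x 0 + 1)
        have hz : ∀ j, Sp z (j + 1) = Sp x (j + 1) + 1 := by
          intro j
          unfold Sp
          rw [Finset.sum_range_succ', Finset.sum_range_succ']
          have : ∀ k, z (k + 1) = x (k + 1) := fun k => by simp [z]
          simp only [this]
          simp [z]
          omega
        refine ⟨z, ?_, ?_⟩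
        · rw [hb]
          unfold code
          rw [if_neg]
          rintro ⟨j, hj⟩
          cases j with
          | zero => simp [Sp] at hj
          | succ j =>
            rw [hz, Sp_succ] at hj
            omega
        · intro n
          rw [code_eq_iff]
          constructor
          · rintro ⟨j, hj⟩
            cases j with
            | zero => simp [Sp] at hj
            | succ j => exact ⟨j + 1, by rw [hz] at hj; omega⟩
          · rintro ⟨j, hj⟩
            cases j with
            | zero => simp [Sp] at hj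
            | succ j => exact ⟨j + 1, by rw [hz]; omega⟩
      · -- a one: prepend the value zero
        let z : ℕ → ℕ := fun i => Nat.casesOn i 0 x
        have hz : ∀ j, Sp z (j + 1) = Sp x j + 1 := by
          intro j
          unfold Sp
          rw [Finset.sum_range_succ']
          rfl
        refine ⟨z, ?_, ?_⟩
        · rw [hb]
          unfold code
          rw [if_pos]
          exact ⟨1, by rw [hz]; simp [Sp]⟩
        · intro n
          rw [code_eq_iff]
          constructor
          · rintro ⟨j, hj⟩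
            cases j with
            | zero => simp [Sp] at hj
            | succ j => exact ⟨j, by rw [hz] at hj; omega⟩
          · rintro ⟨j, hj⟩
            exact ⟨j + 1, by rw [hz]; omega⟩

/-- For `Λ = ω` as well as for `Λ = 2` there are a tree forcing `P` on the finite sequences
over `Λ` and a Borel set of infinite sequences over `Λ` (with the product topology) that is not
`P`-measurable. -/
theorem result :
    (∃ P : Set (Set (List ℕ)), IsTreeForcing P ∧
      ∃ A : Set (ℕ → ℕ), IsBorel A ∧ ¬ IsPMeasurable P A) ∧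
    (∃ P : Set (Set (List (Fin 2))), IsTreeForcing P ∧
      ∃ A : Set (ℕ → Fin 2), IsBorel A ∧ ¬ IsPMeasurable P A) :=
  ⟨⟨PP _, isTreeForcing coding_id, _, borel_image coding_id, not_measurable coding_id⟩,
    ⟨PP _, isTreeForcing coding_code, _, borel_image coding_code, not_measurable coding_code⟩⟩

end Pool.Agent.Results.MP_9b1908_lc.BorelNotMeasurable
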